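import Mathlib.Order.ConditionallyCompleteLattice.Basic
import Mathlib.Data.Fin.VecNotation
import Mathlib.GroupTheory.PresentedGroup

/-! Group trisections of surface groups (Abrams, Gay, Kirby), unbalanced version. -/

namespace Pool.Agent.MP_7ebdba_gt

/-- The free group on `a_i = (i, false)` and `b_i = (i, true)`, `i < g`. -/
abbrev F (g : ℕ) : Type := FreeGroup (Fin g × Bool)

/-- The surface relator, the product of the commutators `a_i b_i a_i⁻¹ b_i⁻¹`. -/
def rel (g : ℕ) : F g :=
  (List.ofFn fun i : Fin g =>
    FreeGroup.of (i, false) * FreeGroup.of (i, true) *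
      (FreeGroup.of (i, false))⁻¹ * (FreeGroup.of (i, true))⁻¹).prod

/-- The fundamental group of the closed orientable surface of genus `g`. -/
abbrev S (g : ℕ) : Type := PresentedGroup ({rel g} : Set (F g))

/-- The quotient map from the free group to the surface group. -/
def mk (g : ℕ) : F g →* S g := PresentedGroup.mk {rel g}

/-- Three subgroups of the surface group: the kernels of the maps to the handlebody groups. -/
abbrev Tri (g : ℕ) : Type := Fin 3 → Subgroup (S g)

/-- `K` is the kernel of a surjection onto the free group of rank `n`. -/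
def FreeQuot {g : ℕ} (K : Subgroup (S g)) (n : ℕ) : Prop :=
  ∃ f : S g →* FreeGroup (Fin n), Function.Surjective f ∧ f.ker = K

/-- Group trisection of type `(g; k 0, k 1, k 2)`: the three quotients are free of rank `g` and the
pairwise pushouts are free of ranks `k 0`, `k 1`, `k 2`. -/
def IsTri {g : ℕ} (T : Tri g) (k : Fin 3 → ℕ) : Prop :=
  ∀ i, FreeQuot (T i) g ∧ FreeQuot (T i ⊔ T (i + 1)) (k i)

/-- Equivalence: an automorphism of the surface group carries the three kernels onto the three
kernels, in some order. -/
def Iso {g : ℕ} (T T' : Tri g) : Prop :=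
  ∃ (θ : S g ≃* S g) (σ : Equiv.Perm (Fin 3)), ∀ i, (T i).map θ.toMonoidHom = T' (σ i)

/-- The inclusion of free groups `a_i ↦ a_i`, `b_i ↦ b_i`. -/
def incl (g : ℕ) : F g →* F (g + 1) := FreeGroup.map fun p => (p.1.castSucc, p.2)

/-- Connected sum with the genus one trisection of the 4-sphere whose `j`-th curve is `b` and whose
other two curves are `a`. -/
def stab {g : ℕ} (T : Tri g) (j : Fin 3) : Tri (g + 1) := fun i =>
  Subgroup.normalClosure
    (((T i).comap (mk g)).map ((mk (g + 1)).comp (incl g)) ∪
      {mk (g + 1) (FreeGroup.of (Fin.last g, decide (i = j)))})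

/-- Standard trisections: obtained from the genus zero trisection by stabilisations, up to
equivalence. -/
inductive Standard : (g : ℕ) → Tri g → Prop
  | zero : Standard 0 fun _ => ⊤
  | stab {g : ℕ} {T : Tri g} (j : Fin 3) : Standard g T → Standard (g + 1) (stab T j)
  | iso {g : ℕ} {T T' : Tri g} : Iso T T' → Standard g T → Standard g T'

/-- The final statement. -/
def MainStmt : Prop :=
  ∃ T : Tri 4, IsTri T ![2, 0, 2] ∧ Standard 6 (stab (stab T 0) 0) ∧ ¬ Standard 4 T

end Pool.Agent.MP_7ebdba_gt
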