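import Mathlib.Tactic.NormNum.Ineq
import Mathlib.Data.Fintype.Prod
import Mathlib.Data.Nat.SuccPred
import Mathlib.Tactic.FinCases
import Mathlib.GroupTheory.FreeGroup.Reduce
import Mathlib.Algebra.Order.Ring.Star
import Pool.Agent.MP_7ebdba_gt.Defs

/-! The example: doubles of the fibre of the square knot. Letters 1,2,3,4 are a1,b1,a2,b2 and
negative numbers are inverses. -/

namespace Pool.Agent.MP_7ebdba_gt

/-- The letter with number `n` (1,2,3,4 are a1,b1,a2,b2; negative numbers are inverses). -/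
def ltr (n : ℤ) : (Fin 2 × Bool) × Bool :=
  ((if n.natAbs ≤ 2 then 0 else 1, decide (n.natAbs % 2 = 0)), decide (0 < n))

/-- A word in `F 2` from a list of signed numbers. -/
def wd (l : List ℤ) : F 2 := FreeGroup.mk (l.map ltr)

/-- The endomorphism of `F 2` with the given images of a1, b1, a2, b2. -/
def hom4 (p q r s : List ℤ) : F 2 →* F 2 :=
  FreeGroup.lift fun x => if x.1 = 0 then (if x.2 then wd q else wd p) else (if x.2 then wd s else wd r)

/-- The boundary word. -/
abbrev zeta : F 2 := rel 2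

theorem zeta_eq : zeta = wd [1, 2, -1, -2, 3, 4, -3, -4] := by decide +kernel

def phiH : F 2 →* F 2 := hom4 [1, 2, -1] [2, -1]
  [3, -4] [4, 3, -4]

def phiI : F 2 →* F 2 := hom4 [1, -2] [2, 1, -2]
  [3, 4, -3] [4, -3]

def tinfH : F 2 →* F 2 := hom4 [1, 2, -1] [2, -1]
  [3] [4]

def tinfI : F 2 →* F 2 := hom4 [1, -2] [2, 1, -2]
  [3] [4]

def tauH : F 2 →* F 2 := hom4 [1, -4, 1, -3, 2, 4, -3, 2, -1, 4, -1] [1, -4, 1, -2, 3, -4, -2, 3, -1, 4, 2, -1, 4, -3, 2, -3, 2, 4, -3, 2, -1, 4, -1]
  [1, -4, 1, -2, 3, -4, -2, 3, -1, 4, 2, -1, 4, -3, 2, 4, -3, 2, -1, 4, -1] [1, -3, 2, 4, -3, 2, -1, 4, -1]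

def tauI : F 2 →* F 2 := hom4 [4, -2, 3, 1, -2, 3, -4, 1, -4] [4, -1, 4, -3, 2, -1, -3, 2, -4, 1, 3, -4, 1, -2, 3, 1, -2, 3, -4, 1, -4]
  [4, -1, 4, -3, 2, -1, -3, 2, -4, 1, 3, -4, 1, -2, 3, -2, 3, 1, -2, 3, -4, 1, -4] [4, -1, 4, -2, 3, 1, -2, 3, -4, 1, -4]

/-- Monodromy of the square knot. -/
def phi : F 2 ≃* F 2 :=
  MonoidHom.toMulEquiv phiH phiI
    (FreeGroup.ext_hom _ _ (by decide +kernel)) (FreeGroup.ext_hom _ _ (by decide +kernel))

theorem phi_zeta : phi zeta = zeta := by decide +kernel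

/-- Trefoil monodromy on the first half. -/
def tinf : F 2 ≃* F 2 :=
  MonoidHom.toMulEquiv tinfH tinfI
    (FreeGroup.ext_hom _ _ (by decide +kernel)) (FreeGroup.ext_hom _ _ (by decide +kernel))

theorem tinf_zeta : tinf zeta = zeta := by decide +kernel

/-- Multitwist along the three curves x1, x3, x5. -/
def tau : F 2 ≃* F 2 :=
  MonoidHom.toMulEquiv tauH tauI
    (FreeGroup.ext_hom _ _ (by decide +kernel)) (FreeGroup.ext_hom _ _ (by decide +kernel))

theorem tau_zeta : tau zeta = zeta := by decide +kernel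

theorem mk_rel (g : ℕ) : mk g (rel g) = 1 :=
  PresentedGroup.one_of_mem (Set.mem_singleton _)

theorem mk_surjective (g : ℕ) : Function.Surjective (mk g) := PresentedGroup.mk_surjective _

theorem mk_eq_one {g : ℕ} {w : F g} :
    mk g w = 1 ↔ w ∈ Subgroup.normalClosure ({rel g} : Set (F g)) :=
  PresentedGroup.mk_eq_one_iff

/-- A homomorphism from the free group that kills the relator descends to the surface group. -/
def desc {g : ℕ} {H : Type*} [Group H] (f : F g →* H) (h : f (rel g) = 1) : S g →* H :=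
  QuotientGroup.lift _ f fun _ hx =>
    (Subgroup.normalClosure_le_normal (N := f.ker) (by simpa using h)) hx

@[simp] theorem desc_mk {g : ℕ} {H : Type*} [Group H] (f : F g →* H) (h : f (rel g) = 1)
    (w : F g) : desc f h (mk g w) = f w := rfl

theorem hom_ext {g : ℕ} {H : Type*} [Group H] {f f' : S g →* H}
    (h : ∀ x, f (mk g (FreeGroup.of x)) = f' (mk g (FreeGroup.of x))) : f = f' :=
  PresentedGroup.ext h

/-- An automorphism of the free group that fixes the relator induces one of the surface group. -/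
def ind {g : ℕ} (θ : F g ≃* F g) (h : θ (rel g) = rel g) : S g ≃* S g :=
  MonoidHom.toMulEquiv
    (desc ((mk g).comp θ.toMonoidHom) (by simp [h, mk_rel]))
    (desc ((mk g).comp θ.symm.toMonoidHom) (by
      have h' : θ.symm (rel g) = rel g := by rw [MulEquiv.symm_apply_eq, h]
      simp [h', mk_rel]))
    (hom_ext fun x => by simp) (hom_ext fun x => by simp)

@[simp] theorem ind_mk {g : ℕ} (θ : F g ≃* F g) (h : θ (rel g) = rel g) (w : F g) :
    ind θ h (mk g w) = mk g (θ w) := rfl

/-- The closed monodromy. -/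
def Phi : MulAut (S 2) := ind phi phi_zeta
/-- The closed half monodromy. -/
def Tinf : MulAut (S 2) := ind tinf tinf_zeta
/-- The closed multitwist. -/
def Tau : MulAut (S 2) := ind tau tau_zeta

/-- The two inclusions of the fibre group at the level of free groups: `false` is the identity on
names, `true` is a1 ↦ b4, b1 ↦ a4, a2 ↦ b3, b2 ↦ a3. -/
def iotF (c : Bool) : F 2 →* F 4 :=
  FreeGroup.map fun x =>
    if c then (Fin.rev (x.1.castLE (by norm_num)), !x.2) else (x.1.castLE (by norm_num), x.2)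

/-- The two inclusions of the fibre group in the genus four surface group. -/
def iot (c : Bool) : F 2 →* S 4 := (mk 4).comp (iotF c)

theorem rel4_eq : rel 4 = iotF false zeta * (iotF true zeta)⁻¹ := by decide +kernel

theorem iot_zeta : iot true zeta = iot false zeta := by
  have h : mk 4 (iotF false zeta * (iotF true zeta)⁻¹) = 1 :=
    (congrArg (mk 4) rel4_eq).symm.trans (mk_rel 4)
  rw [map_mul, map_inv, mul_inv_eq_one] at h
  exact h.symm

/-- The homomorphism of `F 4` that is `f0` on the first half and `f1` on the second half. -/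
def glueF {H : Type*} [Group H] (f0 f1 : F 2 →* H) : F 4 →* H :=
  FreeGroup.lift fun x =>
    if h : x.1.val < 2 then f0 (FreeGroup.of (⟨x.1.val, h⟩, x.2))
    else f1 (FreeGroup.of (⟨3 - x.1.val, by omega⟩, !x.2))

theorem glueF_false {H : Type*} [Group H] (f0 f1 : F 2 →* H) (w : F 2) :
    glueF f0 f1 (iotF false w) = f0 w := by
  have : (glueF f0 f1).comp (iotF false) = f0 := by
    refine FreeGroup.ext_hom _ _ ?_
    rintro ⟨i, c⟩
    fin_cases i <;> simp [glueF, iotF]
  exact DFunLike.congr_fun this w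

theorem glueF_true {H : Type*} [Group H] (f0 f1 : F 2 →* H) (w : F 2) :
    glueF f0 f1 (iotF true w) = f1 w := by
  have : (glueF f0 f1).comp (iotF true) = f1 := by
    refine FreeGroup.ext_hom _ _ ?_
    rintro ⟨i, c⟩
    fin_cases i <;> simp [glueF, iotF, Fin.rev]
  exact DFunLike.congr_fun this w

/-- Gluing two homomorphisms that agree on the boundary word. -/
def glue {H : Type*} [Group H] (f0 f1 : F 2 →* H) (h : f1 zeta = f0 zeta) : S 4 →* H :=
  desc (glueF f0 f1) (by rw [rel4_eq, map_mul, map_inv, glueF_false, glueF_true, h, mul_inv_cancel])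

@[simp] theorem glue_false {H : Type*} [Group H] (f0 f1 : F 2 →* H) (h : f1 zeta = f0 zeta)
    (w : F 2) : glue f0 f1 h (iot false w) = f0 w := glueF_false f0 f1 w

@[simp] theorem glue_true {H : Type*} [Group H] (f0 f1 : F 2 →* H) (h : f1 zeta = f0 zeta)
    (w : F 2) : glue f0 f1 h (iot true w) = f1 w := glueF_true f0 f1 w

/-- The fold that is the identity on the first half and `θ` on the second half. -/
def fold (θ : F 2 ≃* F 2) (h : θ zeta = zeta) : S 4 →* F 2 :=
  glue (MonoidHom.id _) θ.toMonoidHom (by simpa using h)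

/-- The free group of rank two. -/
abbrev F2 : Type := FreeGroup (Fin 2)

/-- The map to the group of the boundary connected sum of two copies of the handlebody. -/
def dbl (r : S 2 →* F2) : S 4 →* Monoid.Coprod F2 F2 :=
  glue (Monoid.Coprod.inl.comp (r.comp (mk 2))) (Monoid.Coprod.inr.comp (r.comp (mk 2)))
    (by simp [mk_rel])

/-- The trisection attached to a handlebody filling `r` of the capped fibre. -/
def TT (r : S 2 →* F2) : Tri 4 :=
  ![(dbl r).ker, (fold (MulEquiv.refl _) rfl).ker, (fold phi phi_zeta).ker]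

/-- The filling of slope zero: a1, b2 ↦ p and b1, a2 ↦ q. -/
def r0 : S 2 →* F2 :=
  desc (FreeGroup.lift fun x => FreeGroup.of (if x.2 then Fin.rev x.1 else x.1)) (by decide +kernel)

/-- The automorphisms allowed for changing the slope. -/
def slopeGrp : Subgroup (MulAut (S 2)) :=
  Subgroup.closure ({Tinf, Tau ^ 2} ∪ Set.range MulAut.conj)

/-- Part II (architect helper45): all these triples are stably standard trisections. -/
def PartII : Prop :=
  ∀ θ ∈ slopeGrp, IsTri (TT (r0.comp (θ⁻¹ : MulAut (S 2)).toMonoidHom)) ![2, 0, 2] ∧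
    Standard 6 (stab (stab (TT (r0.comp (θ⁻¹ : MulAut (S 2)).toMonoidHom)) 0) 0)

/-- Part I (architect helper57): one of them is not a stabilisation. -/
def PartI : Prop :=
  ∃ θ ∈ slopeGrp, ∀ (T' : Tri 3) (j : Fin 3),
    ¬ Iso (stab T' j) (TT (r0.comp (θ⁻¹ : MulAut (S 2)).toMonoidHom))

theorem Iso.trans {g : ℕ} {T T' T'' : Tri g} (h : Iso T T') (h' : Iso T' T'') : Iso T T'' := by
  obtain ⟨θ, σ, h⟩ := h
  obtain ⟨θ', σ', h'⟩ := h'
  refine ⟨θ.trans θ', σ' * σ, fun i => ?_⟩
  rw [Equiv.Perm.mul_apply, ← h', ← h, Subgroup.map_map]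
  rfl

theorem Iso.refl {g : ℕ} (T : Tri g) : Iso T T :=
  ⟨MulEquiv.refl _, 1, fun i => by simp⟩

theorem Standard.inv {g : ℕ} {T : Tri g} (h : Standard g T) :
    g = 0 ∨ ∃ (g' : ℕ) (e : g' + 1 = g) (T' : Tri g') (j : Fin 3), Iso (e ▸ Pool.Agent.MP_7ebdba_gt.stab T' j) T := by
  induction h with
  | zero => exact Or.inl rfl
  | stab j _ _ => exact Or.inr ⟨_, rfl, _, j, Iso.refl _⟩
  | iso hi _ ih =>
    rcases ih with h | ⟨g', e, T', j, h⟩
    · exact Or.inl h
    · exact Or.inr ⟨g', e, T', j, h.trans hi⟩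

theorem main_of (h1 : PartI) (h2 : PartII) : MainStmt := by
  obtain ⟨θ, hθ, h1⟩ := h1
  refine ⟨_, (h2 θ hθ).1, (h2 θ hθ).2, fun hs => ?_⟩
  rcases hs.inv with h | ⟨g', e, T', j, h⟩
  · omega
  · obtain rfl : g' = 3 := by omega
    exact h1 T' j h

end Pool.Agent.MP_7ebdba_gt
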