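import Pool.Agent.MP_7ebdba_gt.ge.Main

/-! A genus four group trisection of the trivial group that becomes standard after two
stabilisations, is not standard, and is not a stabilisation. -/

namespace Pool.Agent.MP_7ebdba_gt.GroupForm

open Pool.Agent.MP_7ebdba_gt

theorem result : ∃ T : Tri 4, IsTri T ![2, 0, 2] ∧ T 0 ⊔ T 1 ⊔ T 2 = ⊤ ∧
    Standard 6 (stab (stab T 0) 0) ∧ ¬ Standard 4 T ∧
    ∀ (T' : Tri 3) (j : Fin 3), ¬ Iso (stab T' j) T := by
  obtain ⟨θ, hθ, h1⟩ := ge.partI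
  obtain ⟨h2, h3⟩ := SS.partII θ hθ
  refine ⟨_, h2, ?_, h3, fun hs => ?_, h1⟩
  · obtain ⟨f, -, hf⟩ := (h2 1).2
    have : Subsingleton (FreeGroup (Fin 0)) := inferInstance
    have e : f.ker = ⊤ := eq_top_iff.2 fun x _ => this.elim _ _
    rw [sup_assoc, eq_top_iff]
    exact le_sup_of_le_right (e.symm.trans hf).le
  · rcases hs.inv with h | ⟨g', e, T', j, h⟩
    · omega
    · obtain rfl : g' = 3 := by omega
      exact h1 T' j h

end Pool.Agent.MP_7ebdba_gt.GroupForm
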