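import Pool.Agent.MP_7ebdba_gt.SpecA

/-! Small shared lemmas for part I. -/

namespace Pool.Agent.MP_7ebdba_gt

open Filter
open scoped Pointwise

section
variable {G : Type*}

theorem chi_mem {X : Set G} {x : G} (h : x ∈ X) : chi X x = 1 := by simp [chi, h]
theorem chi_not {X : Set G} {x : G} (h : x ∉ X) : chi X x = 0 := by simp [chi, h]
theorem chi_eq_iff {G' : Type*} {X : Set G} {Y : Set G'} {x : G} {y : G'} :
    chi X x = chi Y y ↔ (x ∈ X ↔ y ∈ Y) := by
  by_cases h : x ∈ X <;> by_cases h' : y ∈ Y <;> simp [chi, h, h']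
theorem chi_compl (X : Set G) (x : G) : chi Xᶜ x = 1 - chi X x := by
  by_cases h : x ∈ X <;> simp [chi, h]
theorem chi_cases (X : Set G) (x : G) : (x ∈ X ∧ chi X x = 1) ∨ (x ∉ X ∧ chi X x = 0) := by
  by_cases h : x ∈ X <;> simp [chi, h]

variable [Group G] {u : G} {X Y : Set G} {R : Type*}

theorem FinMod.mono (h : FinMod u Y) (hs : X ⊆ Y) : FinMod u X := by
  obtain ⟨E, hE, h⟩ := h
  exact ⟨E, hE, fun x hx => h x (hs hx)⟩

theorem FinMod.of_finite (h : X.Finite) : FinMod u X :=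
  ⟨X, h, fun x hx => ⟨0, x, hx, by simp⟩⟩

theorem FinMod.empty : FinMod u (∅ : Set G) := FinMod.of_finite Set.finite_empty

theorem FinMod.union (h : FinMod u X) (h' : FinMod u Y) : FinMod u (X ∪ Y) := by
  obtain ⟨E, hE, h⟩ := h
  obtain ⟨E', hE', h'⟩ := h'
  refine ⟨E ∪ E', hE.union hE', ?_⟩
  rintro x (hx | hx)
  · obtain ⟨k, e, he, rfl⟩ := h x hx
    exact ⟨k, e, Or.inl he, rfl⟩
  · obtain ⟨k, e, he, rfl⟩ := h' x hx
    exact ⟨k, e, Or.inr he, rfl⟩

theorem FinMod.mul_right (h : FinMod u X) (y : G) : FinMod u {x | x * y ∈ X} := by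
  obtain ⟨E, hE, h⟩ := h
  refine ⟨(· * y⁻¹) '' E, hE.image _, fun x hx => ?_⟩
  obtain ⟨k, e, he, hk⟩ := h _ hx
  exact ⟨k, _, ⟨e, he, rfl⟩, by rw [← mul_assoc, ← hk]; simp⟩

theorem FinMod.map {G' : Type*} [Group G'] (θ : G ≃* G') (h : FinMod u X) :
    FinMod (θ u) {x | θ.symm x ∈ X} := by
  obtain ⟨E, hE, h⟩ := h
  refine ⟨θ '' E, hE.image _, fun x hx => ?_⟩
  obtain ⟨k, e, he, hk⟩ := h _ hx
  exact ⟨k, _, ⟨e, he, rfl⟩, by rw [← map_zpow, ← map_mul, ← hk]; simp⟩

theorem finMod_one : FinMod (1 : G) X ↔ X.Finite := by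
  refine ⟨fun ⟨E, hE, h⟩ => hE.subset fun x hx => ?_, FinMod.of_finite⟩
  obtain ⟨k, e, he, rfl⟩ := h x hx
  simpa using he

theorem finMod_ch {P : Type} [Group P] {u : P} {X : Set P} : ch.FinMod u X ↔ FinMod u X :=
  ⟨fun ⟨E, h⟩ => ⟨E, E.finite_toSet, h⟩, fun ⟨E, hE, h⟩ => ⟨hE.toFinset, by simpa using h⟩⟩

theorem ai_one {f : G → R} : AI (1 : G) f ↔ AI1 f := forall_congr' fun _ => finMod_one

theorem AI.of_closure {f : G → R} {S : Set G} (hS : Subgroup.closure S = ⊤)
    (h : ∀ y ∈ S, FinMod u {x | f (x * y) ≠ f x}) : AI u f := by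
  intro y
  have hy : y ∈ Subgroup.closure S := hS ▸ Subgroup.mem_top y
  induction hy using Subgroup.closure_induction with
  | mem y hy => exact h y hy
  | one => simpa using FinMod.empty
  | mul y y' _ _ h1 h2 =>
    refine (h1.union (h2.mul_right y)).mono fun x hx => ?_
    by_contra hn
    simp only [Set.mem_union, Set.mem_setOf_eq, not_or, not_not] at hn hx
    exact hx (by rw [← mul_assoc, hn.2, hn.1])
  | inv y _ h1 =>
    refine (h1.mul_right y⁻¹).mono fun x hx => ?_
    simp only [Set.mem_setOf_eq, inv_mul_cancel_right] at hx ⊢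
    exact fun e => hx e.symm

theorem AI1.of_gen {α : Type*} {f : FreeGroup α → R}
    (h : ∀ y : α, {x | f (x * FreeGroup.of y) ≠ f x}.Finite) : AI1 f := by
  rw [← ai_one]
  refine AI.of_closure (FreeGroup.closure_range_of α) ?_
  rintro _ ⟨y, rfl⟩
  exact finMod_one.2 (h y)

theorem AI.of_gen {g : ℕ} {u : S g} {f : S g → R}
    (h : ∀ y, FinMod u {x | f (x * mk g (FreeGroup.of y)) ≠ f x}) : AI u f := by
  refine AI.of_closure (S := Set.range fun y => mk g (FreeGroup.of y)) ?_ ?_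
  · exact PresentedGroup.closure_range_of _
  · rintro _ ⟨y, rfl⟩
    exact h y

theorem AI1.add [Add R] {f f' : G → R} (h : AI1 f) (h' : AI1 f') : AI1 fun x => f x + f' x := fun y =>
  ((h y).union (h' y)).subset fun x hx => by
    by_contra hn
    simp only [Set.mem_union, Set.mem_setOf_eq, not_or, not_not] at hn hx
    exact hx (by rw [hn.1, hn.2])

theorem AI1.comp {R' : Type*} {f : G → R} (h : AI1 f) (φ : R → R') : AI1 fun x => φ (f x) := fun y =>
  (h y).subset fun _ hx e => hx (congrArg φ e)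

theorem AI1.sub [AddGroup R] {f f' : G → R} (h : AI1 f) (h' : AI1 f') : AI1 fun x => f x - f' x := by
  simpa [sub_eq_add_neg] using h.add (h'.comp fun t => -t)

theorem AI1.left {f : G → R} (h : AI1 f) (g : G) : AI1 fun x => f (g * x) := fun y =>
  ((h y).preimage (mul_right_injective g).injOn).subset fun x hx => by
    simpa [mul_assoc] using hx

theorem AI1.of_finite {f : G → R} {c : R} (h : {x | f x ≠ c}.Finite) : AI1 f := fun y =>
  (h.union (h.preimage (mul_left_injective y).injOn)).subset fun x hx => by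
    by_contra hn
    simp only [Set.mem_union, Set.mem_setOf_eq, Set.mem_preimage, not_or, not_not] at hn hx
    exact hx (by rw [hn.1, hn.2])

theorem AI.map {G' : Type*} [Group G'] (θ : G ≃* G') {f : G → R} (h : AI u f) :
    AI (θ u) fun x => f (θ.symm x) := fun y =>
  ((h (θ.symm y)).map θ).mono fun x hx => by simpa using hx

theorem mem_zpowers_map {G' : Type*} [Group G'] (θ : G ≃* G') {x : G} :
    θ x ∈ Subgroup.zpowers (θ u) ↔ x ∈ Subgroup.zpowers u := by
  constructor
  · rintro ⟨k, hk⟩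
    exact ⟨k, θ.injective (by simpa using hk)⟩
  · rintro ⟨k, rfl⟩
    exact ⟨k, by simp⟩

theorem pos_smul {z : G} {V : Set G} {g x : G} : Pos z (g • V) x ↔ Pos z V (g⁻¹ * x) := by
  simp [Pos, Set.mem_smul_set_iff_inv_smul_mem, mul_assoc]

theorem Fam.compl {A V : Set G} (h : V ∈ Fam A) : Vᶜ ∈ Fam A := by
  obtain ⟨g, rfl | rfl⟩ := h
  · exact ⟨g, Or.inr (Set.smul_set_compl).symm⟩
  · exact ⟨g, Or.inl (by rw [← Set.smul_set_compl, compl_compl])⟩

theorem Fam.smul {A V : Set G} (h : V ∈ Fam A) (k : G) : k • V ∈ Fam A := by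
  obtain ⟨g, rfl | rfl⟩ := h
  · exact ⟨k * g, Or.inl (mul_smul k g A).symm⟩
  · exact ⟨k * g, Or.inr (mul_smul k g Aᶜ).symm⟩

end

theorem iot_zz (c : Bool) : iot c zeta = zz := by
  cases c
  · rfl
  · exact iot_zeta

theorem fold_iot (c : Bool) (h : F 2) : fold (MulEquiv.refl _) rfl (iot c h) = h := by
  cases c <;> simp [fold]

theorem iot_injective (c : Bool) : Function.Injective (iot c) := fun a b e => by
  rw [← fold_iot c a, e, fold_iot]

theorem zeta_ne_one : zeta ≠ 1 := by decide +kernel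

theorem zeta_zpow_injective : Function.Injective fun k : ℤ => zeta ^ k :=
  injective_zpow_iff_not_isOfFinOrder.2 (not_isOfFinOrder_of_isMulTorsionFree zeta_ne_one)

theorem pos_iot {V : Set (S 4)} {c : Bool} {h : F 2} :
    Pos zeta (iot c ⁻¹' V) h ↔ Pos zz V (iot c h) := by
  simp [Pos, iot_zz]

/-- A product of conjugates of the relator and its inverse is trivial in the surface group. -/
theorem mk_cert {g : ℕ} (w : F g) (l : List (F g × Bool))
    (h : w = (l.map fun p => p.1 * (if p.2 then rel g else (rel g)⁻¹) * p.1⁻¹).prod) :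
    mk g w = 1 := by
  subst h
  induction l with
  | nil => simp
  | cons p l ih =>
    rw [List.map_cons, List.prod_cons, map_mul, ih]
    cases p.2 <;> simp [mk_rel]

end Pool.Agent.MP_7ebdba_gt
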