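import Pool.Agent.MP_7ebdba_gt.ch.Defs
import Pool.Agent.MP_7ebdba_gt.Meander

/-! Part I, combinatorial half: definitions and statements. -/

namespace Pool.Agent.MP_7ebdba_gt

open Filter
open scoped Pointwise

section General
variable {G : Type*}

/-- Integer valued indicator function. -/
noncomputable def chi (X : Set G) (x : G) : ℤ := X.indicator 1 x

/-- One of the four corners is empty. -/
def Nst (X Y : Set G) : Prop := X ∩ Y = ∅ ∨ X ∩ Yᶜ = ∅ ∨ Xᶜ ∩ Y = ∅ ∨ Xᶜ ∩ Yᶜ = ∅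

variable [Group G]

/-- Finite modulo left multiplication by powers of `u`. -/
def FinMod (u : G) (X : Set G) : Prop :=
  ∃ E : Set G, E.Finite ∧ ∀ x ∈ X, ∃ k : ℤ, ∃ e ∈ E, x = u ^ k * e

/-- Almost invariant modulo `u`. -/
def AI {R : Type*} (u : G) (f : G → R) : Prop := ∀ y, FinMod u {x | f (x * y) ≠ f x}

/-- Almost invariant. -/
def AI1 {R : Type*} (f : G → R) : Prop := ∀ y, {x | f (x * y) ≠ f x}.Finite

/-- The positive end of the line `g z^n` lies in `V` and the negative end does not. -/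
def Pos (z : G) (V : Set G) (g : G) : Prop :=
  (∀ᶠ n : ℕ in atTop, g * z ^ n ∈ V) ∧ (∀ᶠ n : ℕ in atTop, g * z⁻¹ ^ n ∉ V)

/-- Alternating list, starting with a letter of type `c`. -/
def Alt (H : Bool → Subgroup G) (C : Subgroup G) : Bool → List G → Prop
  | _, [] => True
  | c, x :: l => x ∈ H c ∧ x ∉ C ∧ Alt H C (!c) l

/-- `G` is the amalgam of `H false` and `H true` over `C`. -/
structure Amal (H : Bool → Subgroup G) (C : Subgroup G) : Prop where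
  le : ∀ c, C ≤ H c
  gen : H false ⊔ H true = ⊤
  red : ∀ (c : Bool) (l : List G), l ≠ [] → Alt H C c l → l.prod ∉ C

/-- Algebraic simple closed curve: `A` is a half space of the line of `s`. -/
structure Line (s : G) (A : Set G) : Prop where
  inv : ∀ x, s * x ∈ A ↔ x ∈ A
  ai : AI s (chi A)
  big : ¬ FinMod s A
  big' : ¬ FinMod s Aᶜ
  nest : ∀ g : G, Nst A (g • A)
  ord : ∀ k : ℤ, s ^ k = 1 → k = 0

/-- Average of an almost invariant function over a subgroup. -/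
noncomputable def Av {R : Type*} [AddCommGroup R] (M : Subgroup G) (f : G → R) (p : G) : R :=
  ∑ᶠ m : M, (f (m * p) - f m)

/-- The translates of `A` and of its complement. -/
def Fam (A : Set G) : Set (Set G) := {V | ∃ g : G, V = g • A ∨ V = g • Aᶜ}

end General

/-- Strict cyclic order of three points of a linear order. -/
def Cyc {W : Type*} [LinearOrder W] (a b c : W) : Prop :=
  (a < b ∧ b < c) ∨ (b < c ∧ c < a) ∨ (c < a ∧ a < b)

/-- The powers of the boundary word. -/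
abbrev ZZ : Subgroup (F 2) := Subgroup.zpowers zeta

/-- The invariant circular order on the fibre group, cut at the identity. -/
structure OrdSpec [LinearOrder (F 2)] : Prop where
  bot : ∀ x : F 2, 1 ≤ x
  ai : ∀ k : F 2, AI1 (chi (Set.Ioc 1 k))
  flux : ∀ k x : F 2,
    chi (Set.Ioc 1 k) (x * zeta) - chi (Set.Ioc 1 k) x = chi {1} x - chi {k} x
  cyc : ∀ g a b c : F 2, Cyc a b c → Cyc (g * a) (g * b) (g * c)
  aut : ∀ θ : F 2 ≃* F 2, θ zeta = zeta → ∀ a b : F 2, a ≤ b → θ a ≤ θ b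

/-- No translate of the chord of `g'` crosses the chord of `g`. -/
def Perp [LinearOrder (F 2)] (g g' : F 2) : Prop :=
  ∀ h : F 2, h ≠ 1 → h ≠ g → h * g' ≠ 1 → h * g' ≠ g →
    (h ∈ Set.Ioc 1 g ↔ h * g' ∈ Set.Ioc 1 g)

/-- The boundary curve in the genus four group. -/
def zz : S 4 := iot false zeta

/-- The last commutator in the genus four group. -/
def s0 : S 4 :=
  mk 4 (FreeGroup.of (3, false) * FreeGroup.of (3, true) *
    (FreeGroup.of (3, false))⁻¹ * (FreeGroup.of (3, true))⁻¹)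

/-- No nonzero power of `s` is conjugate into one of the halves. -/
def Hyp (s : S 4) : Prop :=
  ∀ (k : ℤ) (g : S 4) (c : Bool) (h : F 2), s ^ k = g * iot c h * g⁻¹ → k = 0

/-- The line `g zz^n` crosses `A`. -/
def Crs (A : Set (S 4)) (g : S 4) : Prop := Pos zz A g ∨ Pos zz Aᶜ g

/-- What is needed about the translates of a half space. -/
structure Pack (s : S 4) (A : Set (S 4)) : Prop where
  nest : ∀ V ∈ Fam A, ∀ V' ∈ Fam A, Nst V V'
  ai : ∀ V ∈ Fam A, ∀ c, AI1 (chi (iot c ⁻¹' V))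
  fin : ∃ Y : Set (Set (S 4)), Y.Finite ∧
    ∀ U ∈ Fam A, Pos zz U 1 → ∃ n : ℤ, ∃ U1 ∈ Y, U = zz ^ n • U1
  ne : ∃ U ∈ Fam A, Pos zz U 1
  stab : ∀ V ∈ Fam A, Pos zz V 1 → ∀ w : S 4, w • V = V →
    ∃ m : ℕ, 0 < m ∧ w ^ m ∈ Subgroup.normalClosure ({s} : Set (S 4))
  opp : ∀ U ∈ Fam A, Pos zz U 1 → ∀ c, ∃ h : F 2, h ∉ ZZ ∧ Pos zz Uᶜ (iot c h) ∧
    (∀ h', Pos zz U (iot c h') → h' ∈ ZZ) ∧ (∀ h', Pos zz Uᶜ (iot c h') → h⁻¹ * h' ∈ ZZ)

/-- The lines through one period of the boundary curve, in order, and the two matchings. -/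
structure Core (A : Set (S 4)) (n : ℕ) (U : Fin n → Set (S 4)) (g : Bool → Fin n → F 2)
    (σ : Bool → Fin n → Fin n) : Prop where
  mem : ∀ y, U y ∈ Fam A
  pos : ∀ y, Pos zz (U y) 1
  anti : ∀ y y', y < y' → U y' ⊂ U y
  wrap : ∀ y y', zz • U y ⊂ U y'
  ess : ∀ c y, g c y ∉ ZZ
  link : ∀ c y, U (σ c y) = (iot c (g c y))⁻¹ • (U y)ᶜ

/-- The product of the arcs met in `N` round trips from `y`. -/
def trip {n : ℕ} (g : Bool → Fin n → F 2) (σ : Bool → Fin n → Fin n) : Fin n → ℕ → S 4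
  | _, 0 => 1
  | y, N + 1 =>
    iot true (g true y) * iot false (g false (σ true y)) * trip g σ (σ false (σ true y)) N

/-- The matchings are involutions and close up inside `K`. -/
structure Ret (K : Subgroup (S 4)) (n : ℕ) (g : Bool → Fin n → F 2)
    (σ : Bool → Fin n → Fin n) : Prop where
  inv : ∀ c y, σ c (σ c y) = y
  inv' : ∀ c y, g c y * g c (σ c y) = 1
  ess : ∀ c y, g c y ∉ ZZ
  ret : ∀ y, ∃ N : ℕ, 0 < N ∧ (σ false ∘ σ true)^[N] y = y ∧ trip g σ y N ∈ K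

/-- The matchings are non-crossing. -/
def NC [LinearOrder (F 2)] (n : ℕ) (g : Bool → Fin n → F 2) (σ : Bool → Fin n → Fin n) : Prop :=
  ∀ (c : Bool) (h : F 2) (y y' : Fin n),
    ¬ Meander7.Cross (toLex ((1 : F 2), y)) (toLex (g c y, σ c y)) (toLex (h, y'))
      (toLex (h * g c y', σ c y'))

/-- The chord of `g` bounds a set with nested translates. -/
def Half [LinearOrder (F 2)] (g : F 2) : Prop :=
  ∃ I : Set (F 2), AI1 (chi I) ∧ (∀ k : F 2, Nst I (k • I)) ∧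
    {x | ¬ (x ∈ I ↔ x ∈ Set.Ioc 1 g)}.Finite

/-! ### Statements -/

def PotStmt : Prop :=
  ∀ (R : Type) [CommRing R] (c : F 2 → Fin 2 × Bool → R),
    ∃ f : F 2 → R, ∀ x y, f (x * FreeGroup.of y) - f x = c x y

def UnStmt : Prop :=
  ∀ (R : Type) [CommRing R] (f : F 2 → R), AI1 f → (∀ x, f (x * zeta) = f x) → ∀ x, f x = f 1

def CutStmt : Prop :=
  ∀ k : F 2, ∃ X : Set (F 2), AI1 (chi X) ∧ 1 ∉ X ∧
    ∀ x, chi X (x * zeta) - chi X x = chi {1} x - chi {k} x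

def OrdStmt : Prop := ∃ inst : LinearOrder (F 2), @OrdSpec inst

def Iv0Stmt : Prop :=
  ∀ I : Set (F 2), AI1 (chi I) → Pos zeta I 1 → ∃ h, h ∉ ZZ ∧ Pos zeta Iᶜ h

def Iv2Stmt : Prop :=
  ∀ I : Set (F 2), AI1 (chi I) → (∀ h, ¬ Pos zeta I h ∧ ¬ Pos zeta Iᶜ h) → I.Finite ∨ Iᶜ.Finite

def Iv1Stmt : Prop :=
  ∀ [LinearOrder (F 2)], OrdSpec → ∀ (I : Set (F 2)) (g : F 2), AI1 (chi I) → Pos zeta I 1 →
    Pos zeta Iᶜ g → (∀ h, Pos zeta I h → h ∈ ZZ) → (∀ h, Pos zeta Iᶜ h → g⁻¹ * h ∈ ZZ) →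
    {x | ¬ (x ∈ I ↔ x ∈ Set.Ioc 1 g)}.Finite

def AmlStmt : Prop :=
  ∀ (G : Type) [Group G] (H : Bool → Subgroup G) (C : Subgroup G), Amal H C →
    (∀ g, ∃ c l k, Alt H C c l ∧ k ∈ C ∧ g = l.prod * k) ∧
    (∀ c c' l l' k, Alt H C c l → Alt H C c' l' → k ∈ C → l.prod = l'.prod * k →
      l.length = l'.length ∧ (l ≠ [] → c = c'))

def HalfStmt : Prop :=
  ∀ (H : Bool → Subgroup (S 4)) (s : S 4), Amal H (Subgroup.zpowers s) →
    (∀ c, ∃ x ∈ H c, x ∉ Subgroup.zpowers s) → (∀ k : ℤ, s ^ k = 1 → k = 0) → ∃ A, Line s A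

def AmzStmt : Prop := Amal (fun c => (iot c).range) (Subgroup.zpowers zz)

def AmsStmt : Prop :=
  ∃ H : Bool → Subgroup (S 4), Amal H (Subgroup.zpowers s0) ∧
    (∀ c, ∃ x ∈ H c, x ∉ Subgroup.zpowers s0) ∧ ∀ k : ℤ, s0 ^ k = 1 → k = 0

def Am2Stmt : Prop :=
  ∃ (H : Bool → Subgroup (S 2)) (C : Subgroup (S 2)), Amal H C ∧
    ∀ c, ∀ x ∈ H c, ∀ k : ℕ, 0 < k → x ^ k = 1 → x = 1

def RedStmt : Prop :=
  ∀ (T' : Tri 3) (j : Fin 3) (T : Tri 4), Iso (stab T' j) T →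
    ∃ (s : S 4) (A : Set (S 4)), (∀ i, s ∈ T i) ∧ Line s A

def DegStmt : Prop :=
  ∀ (s : S 4) (A : Set (S 4)), Line s A → Hyp s →
    (∀ g c, Crs A g → ∃ h, h ∉ ZZ ∧ Crs A (g * iot c h)) →
    ∀ g c h1 h2 h3, Crs A (g * iot c h1) → Crs A (g * iot c h2) → Crs A (g * iot c h3) →
      h1⁻¹ * h2 ∈ ZZ ∨ h1⁻¹ * h3 ∈ ZZ ∨ h2⁻¹ * h3 ∈ ZZ

def PackStmt : Prop := ∀ (s : S 4) (A : Set (S 4)), Line s A → Hyp s → Pack s A

def CoreStmt : Prop :=
  ∀ (s : S 4) (A : Set (S 4)), Pack s A → ∃ n U g σ, 0 < n ∧ Core A n U g σ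

def RetStmt : Prop :=
  ∀ (s : S 4) (A : Set (S 4)) n U g σ, Pack s A → Core A n U g σ →
    Ret (Subgroup.normalClosure {s}) n g σ

def NcStmt : Prop :=
  ∀ [LinearOrder (F 2)], OrdSpec → ∀ (s : S 4) (A : Set (S 4)) n U g σ, Pack s A →
    Core A n U g σ → NC n g σ ∧ ∀ c y, Half (g c y)

def ArcStmt : Prop :=
  ∀ [LinearOrder (F 2)], OrdSpec → ∀ (K : Subgroup (S 4)) n g σ, 0 < n → Ret K n g σ → NC n g σ →
    (∀ c y y', Perp (g c y) (g c y')) ∧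
    ∀ (θ : F 2 ≃* F 2) (hθ : θ zeta = zeta), K ≤ (fold θ hθ).ker →
      (∀ y, Perp (θ (g true y)) (θ (g true y))) ∧
      ∃ y y', Perp (g false y) (θ (g true y')) ∧ Perp (θ (g true y')) (g false y)

def DiscStmt : Prop :=
  ∀ (r : S 2 →* F2) (K : Subgroup (S 4)) n g σ, 0 < n → Ret K n g σ → K ≤ (dbl r).ker →
    ∃ c y, r (mk 2 (g c y)) = 1

def CocStmt : Prop :=
  ∀ [LinearOrder (F 2)], OrdSpec → ∀ a b : F 2, ∃ c : ℤ, ∀ x,
    chi (Set.Ioc 1 (a * b)) x = chi (Set.Ioc 1 a) x + chi (Set.Ioc 1 b) (a⁻¹ * x) + c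

def AvStmt : Prop :=
  ∀ [LinearOrder (F 2)], OrdSpec → ∀ g : F 2, mk 2 g = 1 →
    (∀ p, Av ⊤ (chi (Set.Ioc 1 g)) p = 0) ∧
    ∀ M : Subgroup (F 2), (mk 2).ker ≤ M → ∃ (c : ℤ) (E : Set (F 2)), E.Finite ∧
      ∀ p, Av M (chi (Set.Ioc 1 g)) p ≠ c → ∃ m ∈ M, ∃ e ∈ E, p = m * e

def E2Stmt : Prop :=
  ∀ [LinearOrder (F 2)], OrdSpec → ∀ g g' : F 2, mk 2 g ≠ 1 → Perp g g → Perp g g' →
    ch.Adj (mk 2 g) (mk 2 g')

def TFStmt : Prop := ∀ (u : S 2) (k : ℕ), 0 < k → u ^ k = 1 → u = 1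

def NtaStmt : Prop :=
  TFStmt → ∀ I : Set (F 2), AI1 (chi I) → (∀ k : F 2, Nst I (k • I)) → I.Infinite → Iᶜ.Infinite →
    (∀ p, Av ⊤ (chi I) p = 0) →
    (∃ (c : ℤ) (E : Set (F 2)), E.Finite ∧
      ∀ p, Av (mk 2).ker (chi I) p ≠ c → ∃ m ∈ (mk 2).ker, ∃ e ∈ E, p = m * e) → False

def NtStmt : Prop :=
  ∀ [LinearOrder (F 2)], OrdSpec → ∀ g : F 2, g ∉ ZZ → Half g → mk 2 g ≠ 1

theorem chain_of (hord : OrdStmt) (hred : RedStmt) (hpack : PackStmt) (hcore : CoreStmt)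
    (hret : RetStmt) (hnc : NcStmt) (harc : ArcStmt) (hdisc : DiscStmt) (he2 : E2Stmt)
    (hnt : NtStmt) : ch.ChainStmt := by
  obtain ⟨inst, ho⟩ := hord
  have hadj := he2 ho
  intro r T' j hiso
  obtain ⟨s, A, hs, hl⟩ := hred T' j _ hiso
  have h0 : s ∈ (dbl r).ker := hs 0
  have h1 : s ∈ (fold (MulEquiv.refl _) rfl).ker := hs 1
  have h2 : s ∈ (fold phi phi_zeta).ker := hs 2
  have hhyp : Hyp s := by
    intro k g c h e
    have e1 : fold (MulEquiv.refl _) rfl (s ^ k) = 1 := by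
      rw [map_zpow, MonoidHom.mem_ker.1 h1, one_zpow]
    have e2 : fold (MulEquiv.refl _) rfl (iot c h) = h := by cases c <;> simp [fold]
    rw [e, map_mul, map_mul, map_inv, e2, mul_inv_eq_one, mul_eq_left] at e1
    apply hl.ord
    rw [e, e1, map_one, mul_one, mul_inv_cancel]
  have hp := hpack s A hl hhyp
  obtain ⟨n, U, g, σ, hn, hc⟩ := hcore s A hp
  have hr := hret s A n U g σ hp hc
  obtain ⟨hN, hH⟩ := hnc ho s A n U g σ hp hc
  obtain ⟨hsame, hfold⟩ := harc ho _ n g σ hn hr hN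
  have le : ∀ (K : Subgroup (S 4)) [K.Normal], s ∈ K → Subgroup.normalClosure {s} ≤ K :=
    fun K _ h => Subgroup.normalClosure_le_normal (by simpa using h)
  obtain ⟨-, y1, y1', p1, p1'⟩ := hfold (MulEquiv.refl _) rfl (le _ h1)
  obtain ⟨q2, y2, y2', p2, p2'⟩ := hfold phi phi_zeta (le _ h2)
  obtain ⟨c, y, hd⟩ := hdisc _ _ n g σ hn hr (le _ h0)
  have ne : ∀ c y, mk 2 (g c y) ≠ 1 := fun c y => hnt ho _ (hr.ess _ _) (hH _ _)
  have same : ∀ c y y', ch.Adj2 (mk 2 (g c y)) (mk 2 (g c y')) := fun c y y' =>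
    ⟨hadj _ _ (ne _ _) (hsame _ _ _) (hsame _ _ _), hadj _ _ (ne _ _) (hsame _ _ _) (hsame _ _ _)⟩
  have ne2 : mk 2 (phi (g true y2')) ≠ 1 := fun e =>
    ne true y2' (Phi.injective (e.trans (map_one Phi).symm))
  refine ⟨mk 2 (g true y2'), mk 2 (g true y1'), mk 2 (g false y1), mk 2 (g false y2),
    mk 2 (g c y), ne _ _, ne _ _, ne _ _, ne _ _, ne _ _, hd, same _ _ _,
    ⟨hadj _ _ (ne _ _) (hsame _ _ _) p1', hadj _ _ (ne _ _) (hsame _ _ _) p1⟩, same _ _ _,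
    ⟨hadj _ _ (ne _ _) (hsame _ _ _) p2, hadj _ _ ne2 (q2 _) p2'⟩, ?_⟩
  cases c
  · exact Or.inr ⟨same _ _ _, same _ _ _⟩
  · exact Or.inl ⟨same _ _ _, same _ _ _⟩

end Pool.Agent.MP_7ebdba_gt
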