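import Mathlib.Analysis.InnerProductSpace.PiL2
import Mathlib.Analysis.Calculus.ContDiff.Defs

/-! Smooth trisections of the round 4-sphere, and standard trisections. -/

open scoped ContDiff Topology
open Set Metric

namespace Pool.Agent.MP_7ebdba_gt.St

section
variable {F G H : Type} [NormedAddCommGroup F] [NormedSpace ℝ F] [NormedAddCommGroup G]
  [NormedSpace ℝ G] [NormedAddCommGroup H] [NormedSpace ℝ H]

/-- `f` is smooth on the subset `s`: near each point of `s` it has a smooth extension. -/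
def SmOn (f : F → G) (s : Set F) : Prop :=
  ∀ x ∈ s, ∃ f' : F → G, (∀ᶠ y in 𝓝 x, ContDiffAt ℝ ∞ f' y) ∧ f =ᶠ[𝓝[s] x] f'

/-- `f` is a diffeomorphism of `s` onto `t`. -/
def DiffOn (f : F → G) (s : Set F) (t : Set G) : Prop :=
  SmOn f s ∧ BijOn f s t ∧ ∃ g, SmOn g t ∧ LeftInvOn g f s

/-- `f` is a diffeomorphism of `s` onto a relatively open subset of `t`. -/
def OpenEmb (f : F → G) (s : Set F) (t : Set G) : Prop := ∃ U, IsOpen U ∧ DiffOn f s (t ∩ U)

/-- The half ball of radius two in `ℝᵐ⁺¹`. -/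
def halfBall (m : ℕ) : Set (EuclideanSpace ℝ (Fin (m + 1))) := {y | 0 ≤ y 0 ∧ ‖y‖ < 2}

/-- `Z` is a boundary connected sum of the `(m + 1)`-manifolds with boundary `X` and `Y`: remove the
centres of half balls at the boundaries and glue as in the Kervaire-Milnor connected sum. -/
def BdSum (m : ℕ) (X : Set F) (Y : Set G) (Z : Set H) : Prop :=
  ∃ (a : EuclideanSpace ℝ (Fin (m + 1)) → F) (b : EuclideanSpace ℝ (Fin (m + 1)) → G)
    (f : F → H) (h : G → H),
    OpenEmb a (halfBall m) X ∧ OpenEmb b (halfBall m) Y ∧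
    OpenEmb f (X \ {a 0}) Z ∧ OpenEmb h (Y \ {b 0}) Z ∧
    Z = f '' (X \ {a 0}) ∪ h '' (Y \ {b 0}) ∧
    ∀ x ∈ X \ {a 0}, ∀ y ∈ Y \ {b 0}, f x = h y ↔
      ∃ (t : ℝ) (v : EuclideanSpace ℝ (Fin (m + 1))),
        0 < t ∧ t < 1 ∧ ‖v‖ = 1 ∧ 0 ≤ v 0 ∧ x = a (t • v) ∧ y = b ((1 - t) • v)

/-- `S¹ × Bᵐ`. -/
def tube (m : ℕ) : Set (EuclideanSpace ℝ (Fin 2) × EuclideanSpace ℝ (Fin m)) :=
  sphere 0 1 ×ˢ closedBall 0 1

/-- `Z` is a boundary connected sum of `k` copies of `S¹ × Bᵐ`; for `k = 0` it is diffeomorphic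
to the ball `Bᵐ⁺¹`. -/
def NatSum (m : ℕ) : ℕ → Set F → Prop
  | 0, Z => ∃ f : EuclideanSpace ℝ (Fin (m + 1)) → F, DiffOn f (closedBall 0 1) Z
  | k + 1, Z => ∃ X : Set F, NatSum m k X ∧ BdSum m X (tube m) Z

end

/-- The three sectors of the plane. -/
def sector : Fin 3 → Set (ℝ × ℝ) :=
  ![{p | 0 ≤ p.1}, {p | p.1 ≤ 0 ∧ 0 ≤ p.2}, {p | p.1 ≤ 0 ∧ p.2 ≤ 0}]

section
variable {V : Type} [NormedAddCommGroup V] [InnerProductSpace ℝ V]

/-- The preimages in the unit sphere of the three sectors under the map `(A, B)`. -/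
def pieces (A B : V → ℝ) (i : Fin 3) : Set (sphere (0 : V) 1) := {x | (A x, B x) ∈ sector i}

/-- `A` and `B` are smooth at the points of the unit sphere, and the map `(A, B)` from the sphere to
the plane is transverse to the walls of the sectors and to the origin. -/
structure Transverse (A B : V → ℝ) : Prop where
  smooth : ∀ x, ‖x‖ = 1 → ContDiffAt ℝ ∞ A x ∧ ContDiffAt ℝ ∞ B x
  wallA : ∀ x, ‖x‖ = 1 → A x = 0 → ∃ v, inner ℝ x v = 0 ∧ fderiv ℝ A x v ≠ 0
  wallB : ∀ x, ‖x‖ = 1 → A x ≤ 0 → B x = 0 → ∃ v, inner ℝ x v = 0 ∧ fderiv ℝ B x v ≠ 0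
  core : ∀ x, ‖x‖ = 1 → A x = 0 → B x = 0 →
    ∃ v, inner ℝ x v = 0 ∧ fderiv ℝ A x v = 0 ∧ fderiv ℝ B x v ≠ 0

/-- A smooth trisection of type `(g; k 0, k 1, k 2)` of the round 4-sphere (for `V = ℝ⁵`): the
pieces of a transverse map `(A, B)`. The piece `X i` is a boundary sum of `k i` copies of
`S¹ × B³` (the corner of `X 1` and `X 2` is rounded), and the pairwise intersections are boundary
sums of `g` copies of `S¹ × B²`. -/
def IsTri (X : Fin 3 → Set (sphere (0 : V) 1)) (g : ℕ) (k : Fin 3 → ℕ) : Prop :=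
  ∃ A B : V → ℝ, Transverse A B ∧ X = pieces A B ∧
    NatSum 3 (k 0) (Subtype.val '' X 0) ∧
    (∀ i ≠ 0, ∀ᶠ ε in 𝓝[>] 0, NatSum 3 (k i) (Subtype.val '' {x ∈ X i | ε ≤ |A x * B x|})) ∧
    ∀ i, NatSum 2 g (Subtype.val '' (X i ∩ X (i + 1)))

end

section
variable {M : Type} [TopologicalSpace M]

/-- A chart at a point of the core in which the pieces are the sectors times a plane. -/
def CoreChart (X : Fin 3 → Set M) (ι : EuclideanSpace ℝ (Fin 4) → M) : Prop :=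
  Topology.IsOpenEmbedding ι ∧ ∀ i y, ι y ∈ X i ↔ (y 0, y 1) ∈ sector i

/-- `Z` is a connected sum of `X` and `Y` at points of the cores (Kervaire-Milnor gluing). -/
def ConnSum (X Y Z : Fin 3 → Set M) : Prop :=
  ∃ (ι κ : EuclideanSpace ℝ (Fin 4) → M) (f h : OpenPartialHomeomorph M M),
    CoreChart X ι ∧ CoreChart Y κ ∧
    f.source = {ι 0}ᶜ ∧ h.source = {κ 0}ᶜ ∧ f.target ∪ h.target = univ ∧
    (∀ x ∈ f.source, ∀ y ∈ h.source, f x = h y ↔ ∃ (t : ℝ) (v : EuclideanSpace ℝ (Fin 4)),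
      0 < t ∧ t < 1 ∧ ‖v‖ = 1 ∧ x = ι (t • v) ∧ y = κ ((1 - t) • v)) ∧
    ∀ i, Z i = f '' (X i ∩ f.source) ∪ h '' (Y i ∩ h.source)

/-- The decompositions obtained from `Z₀` by connected sums with renumbered copies of `Z₁`, up to
homeomorphisms and renumbering. -/
inductive Generated (Z₀ Z₁ : Fin 3 → Set M) : (Fin 3 → Set M) → Prop
  | zero : Generated Z₀ Z₁ Z₀
  | equiv {X : Fin 3 → Set M} (f : M ≃ₜ M) (σ : Equiv.Perm (Fin 3)) :
      Generated Z₀ Z₁ X → Generated Z₀ Z₁ fun i => f '' X (σ i)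
  | stab {X Z : Fin 3 → Set M} (σ : Equiv.Perm (Fin 3)) :
      Generated Z₀ Z₁ X → ConnSum X (fun i => Z₁ (σ i)) Z → Generated Z₀ Z₁ Z

end

/-- The genus zero trisection of the round 4-sphere. -/
def genusZero : Fin 3 → Set (sphere (0 : EuclideanSpace ℝ (Fin 5)) 1) :=
  pieces (fun x => x 0) (fun x => x 1)

/-- The genus one trisection of the round 4-sphere with pieces `S¹ × B³`, `B⁴`, `B⁴`. -/
def genusOne : Fin 3 → Set (sphere (0 : EuclideanSpace ℝ (Fin 5)) 1) :=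
  pieces (fun x => x 0 ^ 2 + x 1 ^ 2 - 1 / 2) (fun x => x 2)

/-- Standard decompositions: obtained from the genus zero trisection by connected sums with one of
the genus one trisections, up to homeomorphisms of the sphere and renumbering. -/
def Standard (X : Fin 3 → Set (sphere (0 : EuclideanSpace ℝ (Fin 5)) 1)) : Prop :=
  Generated genusZero genusOne X

end Pool.Agent.MP_7ebdba_gt.St
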