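import Pool.Agent.MP_7ebdba_gt.St
import Pool.Agent.MP_7ebdba_gt.sm.Final
import Pool.Agent.MP_7ebdba_gt.hb.All

/-! The statement file agrees with the working definitions. -/

open scoped ContDiff Topology
open Set Metric

namespace Pool.Agent.MP_7ebdba_gt.St

theorem natSum_iff (m k : ℕ) (Z : Set (sm.E 5)) : NatSum m k Z ↔ hb.NatSum m k Z := by
  induction k generalizing Z with
  | zero => exact Iff.rfl
  | succ k ih =>
    constructor
    · rintro ⟨X, h1, h2⟩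
      exact ⟨X, (ih X).1 h1, h2⟩
    · rintro ⟨X, h1, h2⟩
      exact ⟨X, (ih X).2 h1, h2⟩

theorem isTri_of {X : Fin 3 → Set sm.S4} {g : ℕ} {k : Fin 3 → ℕ} (h : hb.IsTri X g k) :
    IsTri X g k := by
  obtain ⟨A, B, hA, hB, hX, h1, h2, h3, h4, h5, h6⟩ := h
  have mem : ∀ x : sm.E 5, ‖x‖ = 1 → x ∈ sphere (0 : sm.E 5) 1 := fun x hx => by simpa using hx
  refine ⟨A, B, ⟨fun x hx => ⟨hA ⟨x, mem x hx⟩, hB ⟨x, mem x hx⟩⟩, fun x hx ha => ?_,
    fun x hx ha hb => ?_, fun x hx ha hb => ?_⟩, funext hX,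
    (natSum_iff _ _ _).2 h4, fun i hi => (h5 i hi).mono fun ε hε => (natSum_iff _ _ _).2 hε,
    fun i => (natSum_iff _ _ _).2 (h6 i)⟩
  · obtain ⟨v, hv, hv'⟩ := h1 ⟨x, mem x hx⟩ ha
    exact ⟨v, hv.1, hv'⟩
  · obtain ⟨v, hv, hv'⟩ := h2 ⟨x, mem x hx⟩ ha hb
    exact ⟨v, hv.1, hv'⟩
  · obtain ⟨v, hv, hv'⟩ := h3 ⟨x, mem x hx⟩ ha hb
    exact ⟨v, hv.1, hv.2 A (by simp), hv'⟩

theorem Standard.sm {X : Fin 3 → Set sm.S4} (h : Standard X) : sm.Standard X := by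
  unfold Standard at h
  induction h with
  | zero => exact sm.Standard.zero
  | equiv f σ _ ih => exact sm.Standard.equiv f σ ih
  | stab σ _ hc ih => exact sm.Standard.stab σ ih hc

theorem final : ∃ X : Fin 3 → Set (sphere (0 : EuclideanSpace ℝ (Fin 5)) 1),
    IsTri X 4 ![0, 2, 2] ∧ ¬ Standard X := by
  obtain ⟨X, h1, h2⟩ := hb.final_of hb.hbAll sm.smooth
  exact ⟨X, isTri_of h1, fun h => h2 h.sm⟩

end Pool.Agent.MP_7ebdba_gt.St
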